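import Pool.Agent.H36Z.IndCM.Main

set_option autoImplicit false

namespace Pool.Agent.Results.MP_271f8e_al.ACounterexample

open Pool.Agent.H36Z.IndCM

universe u

/-- For `G = SL_2` over any algebraically closed field `k` of characteristic `p > 0` and `B` the
Borel subgroup of upper triangular matrices, there is a Cohen-Macaulay `B`-algebra `R` (a finitely
generated domain) such that the induced algebra `ind_B^G R` is not Cohen-Macaulay. -/
theorem result (p : ℕ) [Fact p.Prime] (k : Type u) [Field k] [IsAlgClosed k] [CharP k p] :
    ∃ (R : Type u) (_ : CommRing R) (_ : Algebra k R) (ρ : Borel k →* (R ≃ₐ[k] R)),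
      IsRationalAction ρ ∧ IsDomain R ∧ Algebra.FiniteType k R ∧ IsCohenMacaulay R ∧
        ¬ IsCohenMacaulay (ind ρ) :=
  main

end Pool.Agent.Results.MP_271f8e_al.ACounterexample
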